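import Pool.Agent.W262.SH.Stm

/-!
# DIV: division by 2 on `y² = x (x - a) (x - b)` over algebraically closed fields
-/

namespace Pool.Agent.W177.SH

open WeierstrassCurve Pool.Agent.W262.SH

open scoped Classical

/-- the curve with explicit coefficients -/
def crv {K : Type} [Field K] (a b : K) : WeierstrassCurve K := ⟨0, -(a + b), 0, a * b, 0⟩

lemma isW_eq {K : Type} [Field K] {W : WeierstrassCurve K} {a b : K} (h : IsW W a b) :
    W = crv a b := by
  obtain ⟨h1, h2, h3, h4, h5⟩ := h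
  cases W
  simp only at h1 h2 h3 h4 h5
  subst h1 h2 h3 h4 h5
  rfl

lemma halve_aux {K : Type} [Field K] [CharZero K] {x r1 r2 r3 : K} (h12 : r1 ^ 2 - r2 ^ 2 ≠ 0)
    (h13 : r1 ^ 2 - r3 ^ 2 ≠ 0) (h23 : r2 ^ 2 ≠ r3 ^ 2) (hx : x = r1 ^ 2)
    (h : (crv (r1 ^ 2 - r2 ^ 2) (r1 ^ 2 - r3 ^ 2)).toAffine.Nonsingular x (r1 * r2 * r3)) :
    ∃ Q : (crv (r1 ^ 2 - r2 ^ 2) (r1 ^ 2 - r3 ^ 2)).toAffine.Point,
      Affine.Point.some x (r1 * r2 * r3) h = Q + Q := by
  subst hx
  have d12 : r1 + r2 ≠ 0 := by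
    intro hh
    apply h12
    linear_combination (r1 - r2) * hh
  have d13 : r1 + r3 ≠ 0 := by
    intro hh
    apply h13
    linear_combination (r1 - r3) * hh
  have d23 : r2 + r3 ≠ 0 := by
    intro hh
    apply h23
    linear_combination (r2 - r3) * hh
  obtain ⟨X, hX⟩ : ∃ X, X = r1 ^ 2 + r1 * r2 + r1 * r3 + r2 * r3 := ⟨_, rfl⟩
  obtain ⟨Y, hY⟩ : ∃ Y, Y = (r1 + r2) * (r1 + r3) * (r2 + r3) := ⟨_, rfl⟩
  have hY0 : Y ≠ 0 := by
    rw [hY]; exact mul_ne_zero (mul_ne_zero d12 d13) d23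
  have h2Y : (2 : K) * Y ≠ 0 := mul_ne_zero (by norm_num) hY0
  have hQ : (crv (r1 ^ 2 - r2 ^ 2) (r1 ^ 2 - r3 ^ 2)).toAffine.Nonsingular X Y := by
    rw [Affine.nonsingular_iff, Affine.equation_iff]
    simp only [crv]
    refine ⟨?_, Or.inr ?_⟩
    · rw [hX, hY]; ring
    · intro hh
      apply h2Y
      linear_combination hh
  refine ⟨Affine.Point.some X Y hQ, ?_⟩
  have hy' : Y ≠ (crv (r1 ^ 2 - r2 ^ 2) (r1 ^ 2 - r3 ^ 2)).toAffine.negY X Y := by
    simp only [Affine.negY, crv]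
    intro hh
    apply h2Y
    linear_combination hh
  have hslope : (crv (r1 ^ 2 - r2 ^ 2) (r1 ^ 2 - r3 ^ 2)).toAffine.slope X X Y Y
      = r1 + r2 + r3 := by
    rw [Affine.slope_of_Y_ne rfl hy']
    simp only [Affine.negY, crv]
    have e3' : Y - (-Y - 0 * X - 0) = 2 * Y := by ring
    rw [e3', div_eq_iff h2Y]
    rw [hX, hY]; ring
  rw [Affine.Point.add_self_of_Y_ne hy']
  simp only [Affine.Point.some.injEq]
  rw [hslope]
  constructor
  · simp only [Affine.addX, crv]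
    rw [hX]; ring
  · simp only [Affine.addY, Affine.negAddY, Affine.negY, Affine.addX, crv]
    rw [hX, hY]; ring

theorem div : DIV := by
  intro K _ _ _ W a b hW ha hb hab P
  have hWe := isW_eq hW
  subst hWe
  match P with
  | 0 => exact ⟨0, by simp⟩
  | .some x y h =>
    obtain ⟨r1, hr1⟩ := IsAlgClosed.exists_pow_nat_eq x (n := 2) (by norm_num)
    obtain ⟨r2, hr2⟩ := IsAlgClosed.exists_pow_nat_eq (x - a) (n := 2) (by norm_num)
    obtain ⟨r3, hr3⟩ := IsAlgClosed.exists_pow_nat_eq (x - b) (n := 2) (by norm_num)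
    have hy : y ^ 2 = x * (x - a) * (x - b) := by
      have := (Affine.equation_iff _ _).mp h.1
      simp only [crv] at this
      linear_combination this
    have hyy : y ^ 2 = (r1 * r2 * r3) ^ 2 := by
      rw [hy, mul_pow, mul_pow, hr1, hr2, hr3]
    obtain rfl : a = r1 ^ 2 - r2 ^ 2 := by linear_combination hr2 - hr1
    obtain rfl : b = r1 ^ 2 - r3 ^ 2 := by linear_combination hr3 - hr1
    have h23 : r2 ^ 2 ≠ r3 ^ 2 := by
      intro hh
      apply hab
      rw [hh]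
    rcases sq_eq_sq_iff_eq_or_eq_neg.mp hyy with hy1 | hy1
    · subst hy1
      exact halve_aux ha hb h23 hr1.symm h
    · have hy2 : y = r1 * r2 * (-r3) := by rw [hy1]; ring
      subst hy2
      have e3 : (-r3) ^ 2 = r3 ^ 2 := by ring
      have key := halve_aux (x := x) (r1 := r1) (r2 := r2) (r3 := -r3) ha (by rw [e3]; exact hb)
        (by rw [e3]; exact h23) hr1.symm
      rw [e3] at key
      exact key h

end Pool.Agent.W177.SH
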